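import Pool.Agent.H96.SA.Alg
import Pool.Agent.H85.SA.Def
import Pool.Agent.H85.SF.Jel

/-! # [H96 SA] (c7): the jets over a splitting field of `q`, as polynomials in one primitive element

`c7`: `SjL` over an algebraic closure `K` of `ℚ` (output of `jetsL`) for `b` over `ℚ` gives `Jets q d` for every `d` with the same
`s, W, m` and `d.b = N b` over `ℤ`. `θ` = a primitive element of the field generated by the roots `al_j` of `q` and the values of
`w` for all blocks and all unit targets; `M` vanishes at `θ` (`vanish_dvd`); `al_j = ρ_j(θ)/μ`, `w_k = w_k(θ)/μ`. -/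

set_option autoImplicit false

namespace Pool.Agent.H96.SA

open Polynomial Pool.Agent.H98.AL Pool.Agent.H85.SA

/-- `ℤ[T][X] → ℤ[t, y]`, `X ↦ t`, `T ↦ y` -/
private noncomputable def psi : ℤ[X][X] →+* P2 :=
  eval₂RingHom (aeval (MvPolynomial.X 1 : P2) : ℤ[X] →ₐ[ℤ] P2).toRingHom (MvPolynomial.X 0)

private theorem psi_X : psi X = MvPolynomial.X 0 := by
  simp [psi]

private theorem psi_C (s : ℤ[X]) : psi (C s) = emT s := by
  simp [psi, emT]

private theorem psi_CC (a : ℤ) : psi (C (C a)) = MvPolynomial.C a := by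
  rw [psi_C, emT, aeval_C, MvPolynomial.algebraMap_eq]

private theorem psi_em (q : ℤ[X]) : psi (q.map C) = Pool.Agent.H85.SA.em q := by
  rw [Pool.Agent.H85.SA.em, psi, coe_eval₂RingHom, eval₂_map, aeval_def]
  congr 1
  exact RingHom.ext_int _ _

variable {K : Type} [Field K] [Algebra ℚ K]

omit [Algebra ℚ K] in
private theorem split_dvd {θ : K} {M : ℤ[X]} (hM : ∀ h : ℤ[X], aeval θ h = 0 → ∃ (κ : ℤ) (R : ℤ[X]), κ ≠ 0 ∧ C κ * h = M * R)
    (H : ℤ[X][X]) (hH : ∀ i, aeval θ (H.coeff i) = 0) :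
    ∃ (ν : ℤ) (Q : ℤ[X][X]), ν ≠ 0 ∧ C (C ν) * H = C M * Q := by
  classical
  choose κ R hκ hR using fun i => hM _ (hH i)
  refine ⟨∏ i ∈ Finset.range (H.natDegree + 1), κ i, ∑ i ∈ Finset.range (H.natDegree + 1),
    C (C (∏ j ∈ (Finset.range (H.natDegree + 1)).erase i, κ j) * R i) * X ^ i,
    Finset.prod_ne_zero_iff.2 fun i _ => hκ i, ?_⟩
  have hHs := H.as_sum_range_C_mul_X_pow
  obtain ⟨n, hn⟩ : ∃ n, n = H.natDegree + 1 := ⟨_, rfl⟩
  rw [← hn] at hHs ⊢
  rw [hHs, Finset.mul_sum, Finset.mul_sum]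
  refine Finset.sum_congr rfl fun i hi => ?_
  rw [← mul_assoc, ← C_mul, ← mul_assoc, ← C_mul]
  congr 2
  rw [← Finset.mul_prod_erase _ _ hi, C_mul, mul_assoc, mul_left_comm, mul_left_comm M, ← hR i]

omit [Algebra ℚ K] in
private theorem aeval_hmu {θ α : K} {μ : ℤ} {a : ℤ[X]} (ha : aeval θ a = (μ : K) * α) {b : ℤ[X]} {l : ℕ} (hl : b.natDegree ≤ l) :
    aeval θ (hmu b l a μ) = (μ : K) ^ l * aeval α b := by
  rw [hmu, map_sum, aeval_eq_sum_range' (Nat.lt_succ_of_le hl), Finset.mul_sum]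
  refine Finset.sum_congr rfl fun h hh => ?_
  have h1 : h ≤ l := Nat.lt_succ_iff.1 (Finset.mem_range.1 hh)
  rw [map_mul, aeval_C, map_pow, ha, zsmul_eq_mul]
  simp only [algebraMap_int_eq, eq_intCast, Int.cast_mul, Int.cast_pow]
  rw [mul_pow]
  calc (b.coeff h : K) * (μ : K) ^ (l - h) * ((μ : K) ^ h * α ^ h)
      = (b.coeff h : K) * ((μ : K) ^ (l - h) * (μ : K) ^ h) * α ^ h := by ring
    _ = (μ : K) ^ l * ((b.coeff h : K) * α ^ h) := by rw [← pow_add, Nat.sub_add_cancel h1]; ring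

/-- an injective enumeration of the roots -/
private theorem enum {P : ℚ[X]} (hm : P.Monic) (hi : Irreducible P) [IsAlgClosed K] :
    ∃ al : Fin P.natDegree → K, Function.Injective al ∧ (∀ j, aeval (al j) P = 0) ∧
      ∏ j, (X - C (al j)) = P.map (algebraMap ℚ K) := by
  classical
  have hsep : P.Separable := hi.separable
  have hsplit : (P.map (algebraMap ℚ K)).Splits := IsAlgClosed.splits _
  have hcard : Multiset.card (P.map (algebraMap ℚ K)).roots = P.natDegree := by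
    rw [← hsplit.natDegree_eq_card_roots, natDegree_map]
  have hnd : (P.map (algebraMap ℚ K)).roots.Nodup := nodup_roots hsep.map
  have hc2 : ((P.map (algebraMap ℚ K)).roots.toFinset).card = P.natDegree := by
    rw [Multiset.toFinset_card_of_nodup hnd, hcard]
  let e := Finset.equivFinOfCardEq hc2
  refine ⟨fun j => (e.symm j : K), fun a b hab => e.symm.injective (Subtype.ext hab), fun j => ?_, ?_⟩
  · have h1 := (e.symm j).2
    rw [Multiset.mem_toFinset, mem_roots (hm.map _).ne_zero, IsRoot.def, eval_map_algebraMap] at h1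
    exact h1
  · have h1 : ∏ j : Fin P.natDegree, (X - C ((e.symm j : K))) =
        ∏ a : (P.map (algebraMap ℚ K)).roots.toFinset, (X - C (a : K)) :=
      Equiv.prod_comp e.symm (fun a : (P.map (algebraMap ℚ K)).roots.toFinset => (X - C (a : K)))
    rw [h1, Finset.prod_coe_sort ((P.map (algebraMap ℚ K)).roots.toFinset) (fun a : K => X - C a)]
    have h2 := prod_multiset_X_sub_C_of_monic_of_roots_card_eq (p := P.map (algebraMap ℚ K)) (hm.map _) (by
      rw [hcard, natDegree_map])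
    conv_rhs => rw [← h2]
    rw [Finset.prod_eq_multiset_prod, Multiset.toFinset_val, hnd.dedup]

private theorem card_block {r i₀ : ℕ} (hr : 1 ≤ r) (h1 : 1 ≤ i₀) (b' : ℕ) :
    i₀ * (Finset.univ.filter fun j : Fin r => (j : ℕ) / bs r i₀ = b').card + 1 ≤ r + i₀ := by
  classical
  have hbs : 1 ≤ bs r i₀ := by
    unfold bs
    rw [Nat.one_le_div_iff (by omega)]
    omega
  have h2 : (Finset.univ.filter fun j : Fin r => (j : ℕ) / bs r i₀ = b').card ≤ bs r i₀ := by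
    have h3 : (Finset.univ.filter fun j : Fin r => (j : ℕ) / bs r i₀ = b').card ≤
        (Finset.Ico (b' * bs r i₀) (b' * bs r i₀ + bs r i₀)).card := by
      apply Finset.card_le_card_of_injOn (fun j : Fin r => (j : ℕ))
      · intro j hj
        have h4 : (j : ℕ) / bs r i₀ = b' := (Finset.mem_filter.1 (Finset.mem_coe.1 hj)).2
        have h5 := Nat.div_add_mod (j : ℕ) (bs r i₀)
        have h6 := Nat.mod_lt (j : ℕ) hbs
        rw [h4] at h5
        rw [Finset.mem_coe, Finset.mem_Ico]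
        show b' * bs r i₀ ≤ (j : ℕ) ∧ (j : ℕ) < b' * bs r i₀ + bs r i₀
        have h7 : bs r i₀ * b' = b' * bs r i₀ := Nat.mul_comm _ _
        omega
      · intro a _ b _ hab
        exact Fin.ext hab
    rw [Nat.card_Ico] at h3
    omega
  have h8 : i₀ * bs r i₀ ≤ r + i₀ - 1 := by
    unfold bs
    exact Nat.mul_div_le _ _
  have h9 := Nat.mul_le_mul_left i₀ h2
  omega

theorem c7 [IsAlgClosed K] [Algebra.IsAlgebraic ℚ K] {q : ℤ[X]} (hm : q.Monic) (hi : Irreducible q) {s W m : ℕ} {b : Fin m → Fin s → Fin (4 * W) → ℚ[X]}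
    (hS : Pool.Agent.H85.SF.SjL (q.map (Int.castRingHom ℚ)) b (K)) (d : Dt) (hs : d.s = s) (hW : d.W = W)
    (hmm : d.m = m) (hl : ∀ k < m, ∀ i < s, ∀ u < 4 * W, (d.b k i u).natDegree ≤ d.l) {N : ℤ} (hN : N ≠ 0)
    (hb : ∀ (k : Fin m) (i : Fin s) (u : Fin (4 * W)), (d.b k i u).map (Int.castRingHom ℚ) = C (N : ℚ) * b k i u) :
    Jets q d := by
  classical
  subst hs hW hmm
  obtain ⟨P, hP⟩ : ∃ P, P = q.map (Int.castRingHom ℚ) := ⟨_, rfl⟩
  have hPm : P.Monic := by rw [hP]; exact hm.map _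
  have hPi : Irreducible P := by
    rw [hP]
    exact (hm.irreducible_iff_irreducible_map_fraction_map (K := ℚ)).1 hi
  have hr : P.natDegree = q.natDegree := by
    rw [hP]
    exact natDegree_map_eq_of_injective (RingHom.injective_int (Int.castRingHom ℚ)) q
  have hr1 : 1 ≤ P.natDegree := hPi.natDegree_pos
  obtain ⟨al, hali, hal0, halp⟩ := enum (K := K) hPm hPi
  rw [← hP] at hS
  -- the solutions
  have hw : ∀ (a : Fin 4) (j₀ : Fin P.natDegree) (i₁ : Fin d.s) (u₁ : Fin (4 * d.W)), ∃ w : Fin d.m → K,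
      ∀ j : Fin P.natDegree, (j : ℕ) / bs P.natDegree (a + 1) = (j₀ : ℕ) / bs P.natDegree (a + 1) → ∀ i, ∀ u : Fin (4 * d.W),
        (u : ℕ) < (a + 1) * d.W → ∑ l, w l * aeval (al j) (b l i u) = if j = j₀ ∧ i = i₁ ∧ u = u₁ then 1 else 0 := by
    intro a j₀ i₁ u₁
    obtain ⟨w, hw⟩ := hS al hali hal0 ((a : ℕ) + 1) (by omega) (by omega)
      (Finset.univ.filter fun j : Fin P.natDegree => (j : ℕ) / bs P.natDegree (a + 1) = (j₀ : ℕ) / bs P.natDegree (a + 1))
      (card_block hr1 (by omega) _) (fun j i u => if j = j₀ ∧ i = i₁ ∧ u = u₁ then 1 else 0)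
    exact ⟨w, fun j hj i u hu => hw j (Finset.mem_filter.2 ⟨Finset.mem_univ _, hj⟩) i u hu⟩
  choose w hw using hw
  obtain ⟨θ, μ, f, hμ, hf⟩ := prim (K := K)
    (ι := Fin P.natDegree ⊕ (Fin 4 × Fin P.natDegree × Fin d.s × Fin (4 * d.W) × Fin d.m))
    (Sum.elim al fun t => w t.1 t.2.1 t.2.2.1 t.2.2.2.1 t.2.2.2.2)
  have hθ : IsIntegral ℚ θ := Algebra.IsIntegral.isIntegral θ
  obtain ⟨M, hM1, hM⟩ := vanish_dvd hθ
  obtain ⟨ro, hro⟩ : ∃ ro : ℕ → ℤ[X], ∀ j : Fin P.natDegree, ro j = f (Sum.inl j) :=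
    ⟨fun j => if h : j < P.natDegree then f (Sum.inl ⟨j, h⟩) else 0, fun j => by simp⟩
  have hroθ : ∀ j : Fin P.natDegree, aeval θ (ro j) = (μ : K) * al j := fun j => by
    rw [hro j, hf]
    rfl
  -- the product
  have hprod : ∀ i, aeval θ ((∏ j ∈ Finset.range q.natDegree, (C (C μ) * X - C (ro j)) -
      C (C (μ ^ q.natDegree)) * q.map C).coeff i) = 0 := by
    intro i
    obtain ⟨H, hH⟩ : ∃ H : ℤ[X][X], H = ∏ j ∈ Finset.range q.natDegree, (C (C μ) * X - C (ro j)) -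
      C (C (μ ^ q.natDegree)) * q.map C := ⟨_, rfl⟩
    have h1 : H.map (aeval θ : ℤ[X] →ₐ[ℤ] K).toRingHom = 0 := by
      have hC : ∀ z : ℤ, (aeval θ : ℤ[X] →ₐ[ℤ] K).toRingHom (C z) = (z : K) := fun z => by
        show aeval θ (C z) = _
        rw [aeval_C]
        simp
      have hqm : (q.map C).map (aeval θ : ℤ[X] →ₐ[ℤ] K).toRingHom =
          P.map (algebraMap ℚ (K)) := by
        rw [hP, Polynomial.map_map, Polynomial.map_map]
        congr 1
        exact RingHom.ext_int _ _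
      rw [hH, Polynomial.map_sub, Polynomial.map_mul, hqm, map_C, hC, ← halp, ← hr]
      rw [Polynomial.map_prod, Finset.prod_range]
      have h2 : ∀ j : Fin P.natDegree, (C (C μ) * X - C (ro j)).map (aeval θ : ℤ[X] →ₐ[ℤ] K).toRingHom =
          C (μ : K) * (X - C (al j)) := by
        intro j
        rw [Polynomial.map_sub, Polynomial.map_mul, map_C, hC, map_X, map_C]
        have h3 : (aeval θ : ℤ[X] →ₐ[ℤ] K).toRingHom (ro j) = (μ : K) * al j := hroθ j
        rw [h3, C_mul, mul_sub]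
      rw [Finset.prod_congr rfl fun j _ => h2 j, Finset.prod_mul_distrib, Finset.prod_const, Finset.card_univ, Fintype.card_fin,
        Int.cast_pow, C_pow, sub_self]
    rw [← hH]
    have h4 := congrArg (fun p => p.coeff i) h1
    rw [coeff_map, coeff_zero] at h4
    exact h4
  obtain ⟨ν, Q, hν, hQ⟩ := split_dvd hM _ hprod
  refine ⟨M, μ, ν, ro, psi Q, hM1, hμ, hν, ?_, ?_⟩
  · have h1 := congrArg psi hQ
    rw [map_mul, map_mul, map_sub, map_mul, map_prod, psi_CC, psi_CC, psi_em, psi_C] at h1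
    rw [← h1]
    congr 2
    refine Finset.prod_congr rfl fun j _ => ?_
    rw [map_sub, map_mul, psi_CC, psi_X, psi_C]
  · intro i₀ h1 h4 j₀ hj₀ i₁ hi₁ u₁ hu₁
    rw [← hr] at hj₀ ⊢
    have hu4 : i₀ * d.W ≤ 4 * d.W := Nat.mul_le_mul_right _ h4
    obtain ⟨a, ha⟩ : ∃ a : Fin 4, (a : ℕ) + 1 = i₀ := ⟨⟨i₀ - 1, by omega⟩, by simp; omega⟩
    refine ⟨fun k => if h : k < d.m then f (Sum.inr (a, ⟨j₀, hj₀⟩, ⟨i₁, hi₁⟩, ⟨u₁, by omega⟩, ⟨k, h⟩)) else 0,
      μ ^ (d.l + 1) * N, mul_ne_zero (pow_ne_zero _ hμ) hN, ?_⟩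
    intro j hj hjb i hi u hu
    apply hM
    have hsum : aeval θ (∑ k ∈ Finset.range d.m, (if h : k < d.m then
        f (Sum.inr (a, ⟨j₀, hj₀⟩, ⟨i₁, hi₁⟩, ⟨u₁, by omega⟩, ⟨k, h⟩)) else 0) * hmu (d.b k i u) d.l (ro j) μ) =
        ((μ ^ (d.l + 1) * N : ℤ) : K) * if j = j₀ ∧ i = i₁ ∧ u = u₁ then 1 else 0 := by
      rw [map_sum, Finset.sum_range]
      have h5 := hw a ⟨j₀, hj₀⟩ ⟨i₁, hi₁⟩ ⟨u₁, by omega⟩ ⟨j, hj⟩ (by rw [ha]; exact hjb) ⟨i, hi⟩ ⟨u, by omega⟩
        (by rw [ha]; exact hu)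
      simp only [Fin.mk.injEq] at h5
      rw [← h5, Finset.mul_sum]
      refine Finset.sum_congr rfl fun k _ => ?_
      have h6 : aeval (al ⟨j, hj⟩) (d.b k i u) = (N : K) * aeval (al ⟨j, hj⟩) (b k ⟨i, hi⟩ ⟨u, by omega⟩) := by
        have h7 := hb k ⟨i, hi⟩ ⟨u, by omega⟩
        rw [← aeval_map_int, h7, map_mul, aeval_C]
        simp
      rw [map_mul, dif_pos k.2, hf, aeval_hmu (hroθ ⟨j, hj⟩) (hl k k.2 i hi u (by omega)), h6]
      simp only [Sum.elim_inr, Fin.eta, Int.cast_mul, Int.cast_pow]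
      ring
    rw [map_sub, hsum]
    split_ifs with hc
    · rw [aeval_C]
      simp
    · simp

/-- (c7) in the form used by the assembly -/
theorem jets_of {q : Polynomial ℤ} (hq : q.Monic) (hi : Irreducible (q.map (Int.castRingHom ℚ))) (_hr : 1 ≤ q.natDegree)
    {s W m : ℕ} (b : Fin m → Fin s → Fin (4 * W) → Polynomial ℤ)
    (hS : Pool.Agent.H85.SF.SjL (q.map (Int.castRingHom ℚ)) (fun k i u => (b k i u).map (Int.castRingHom ℚ))
      (AlgebraicClosure ℚ)) (d : Dt) (hds : d.s = s) (hdW : d.W = W) (hdm : d.m = m)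
    (hb : ∀ (k : Fin m) (i : Fin s) (u : Fin (4 * W)), d.b k i u = b k i u)
    (hl : ∀ (k : Fin m) (i : Fin s) (u : Fin (4 * W)), (b k i u).natDegree ≤ d.l) : Jets q d := by
  have hirr : Irreducible q := (hq.irreducible_iff_irreducible_map_fraction_map (K := ℚ)).2 hi
  have halg : Algebra.IsAlgebraic ℚ (AlgebraicClosure ℚ) := AlgebraicClosure.isAlgebraic ℚ
  refine c7 (K := AlgebraicClosure ℚ) hq hirr hS d hds hdW hdm (fun k hk i hi' u hu => ?_) one_ne_zero (fun k i u => ?_)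
  · have h1 := hb ⟨k, hk⟩ ⟨i, hi'⟩ ⟨u, hu⟩
    have h2 := hl ⟨k, hk⟩ ⟨i, hi'⟩ ⟨u, hu⟩
    rw [← h1] at h2
    exact h2
  · rw [hb k i u, Int.cast_one, C_1, one_mul]

end Pool.Agent.H96.SA
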