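import Mathlib

/-! # [H96 SA] algebra over `ℚ(θ)` with integral polynomials (SF phase 2, (c6), (c7))

`clr`: a polynomial over `ℚ` times an integer is integral. `vanish_dvd`: the integral polynomials vanishing at `θ` are, up to
integers, the multiples of one integral polynomial `M` of degree at least 1. `prim`: a finite set of algebraic numbers lies in
one field `ℚ(θ)`, its elements are `f(θ)/μ`, `f` integral, with one `μ`. -/

set_option autoImplicit false

namespace Pool.Agent.H96.SA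

open Polynomial

theorem clr (f : ℚ[X]) : ∃ (c : ℤ) (F : ℤ[X]), c ≠ 0 ∧ F.map (Int.castRingHom ℚ) = C (c : ℚ) * f := by
  obtain ⟨b, hb, hb'⟩ := IsLocalization.integerNormalization_spec (nonZeroDivisors ℤ) f
  refine ⟨b, IsLocalization.integerNormalization (nonZeroDivisors ℤ) f, nonZeroDivisors.ne_zero hb, ?_⟩
  have h1 : (algebraMap ℤ ℚ) = Int.castRingHom ℚ := RingHom.ext_int _ _
  rw [h1] at hb'
  rw [hb', zsmul_eq_mul]
  simp

theorem clr_fin {ι : Type*} [Finite ι] (g : ι → ℚ[X]) :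
    ∃ (c : ℤ) (F : ι → ℤ[X]), c ≠ 0 ∧ ∀ i, (F i).map (Int.castRingHom ℚ) = C (c : ℚ) * g i := by
  classical
  have := Fintype.ofFinite ι
  choose c F hc hF using fun i => clr (g i)
  refine ⟨∏ i, c i, fun i => C (∏ j ∈ Finset.univ.erase i, c j) * F i,
    Finset.prod_ne_zero_iff.2 fun i _ => hc i, fun i => ?_⟩
  have h6 : ∏ i, c i = c i * ∏ j ∈ Finset.univ.erase i, c j := (Finset.mul_prod_erase _ _ (Finset.mem_univ i)).symm
  rw [h6, Polynomial.map_mul, hF i, map_C, eq_intCast, Int.cast_mul, C_mul]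
  ring

section

variable {K : Type*} [Field K] [Algebra ℚ K]

theorem aeval_map_int (θ : K) (h : ℤ[X]) : aeval θ (h.map (Int.castRingHom ℚ)) = aeval θ h := by
  rw [aeval_def, eval₂_map, aeval_def]
  congr 1
  exact RingHom.ext_int _ _

theorem vanish_dvd {θ : K} (hθ : IsIntegral ℚ θ) : ∃ M : ℤ[X], 1 ≤ M.natDegree ∧
    ∀ h : ℤ[X], aeval θ h = 0 → ∃ (κ : ℤ) (R : ℤ[X]), κ ≠ 0 ∧ C κ * h = M * R := by
  obtain ⟨c, M, hc, hM⟩ := clr (minpoly ℚ θ)
  have hcQ : (c : ℚ) ≠ 0 := by exact_mod_cast hc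
  refine ⟨M, ?_, fun h hh => ?_⟩
  · have h1 : (M.map (Int.castRingHom ℚ)).natDegree = M.natDegree :=
      natDegree_map_eq_of_injective (RingHom.injective_int (Int.castRingHom ℚ)) M
    rw [← h1, hM, natDegree_C_mul hcQ]
    exact minpoly.natDegree_pos hθ
  · have h1 : aeval θ (h.map (Int.castRingHom ℚ)) = 0 := by rw [aeval_map_int, hh]
    obtain ⟨f, hf⟩ := minpoly.dvd ℚ θ h1
    obtain ⟨c', F, hc', hF⟩ := clr f
    refine ⟨c * c', F, mul_ne_zero hc hc', ?_⟩
    apply Polynomial.map_injective (Int.castRingHom ℚ) (RingHom.injective_int (Int.castRingHom ℚ))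
    rw [Polynomial.map_mul, Polynomial.map_mul, hM, hF, map_C, hf]
    simp only [eq_intCast, map_mul]
    ring

end

theorem prim0 {F K : Type*} [Field F] [CharZero F] [Field K] [Algebra F K] [Algebra.IsAlgebraic F K] {ι : Type*} [Finite ι]
    (x : ι → K) : ∃ θ : K, ∀ i, ∃ g : F[X], x i = aeval θ g := by
  classical
  have h0 : FiniteDimensional F (IntermediateField.adjoin F (Set.range x)) :=
    IntermediateField.finiteDimensional_adjoin fun y _ => Algebra.IsIntegral.isIntegral y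
  obtain ⟨α, hα⟩ := Field.exists_primitive_element F (IntermediateField.adjoin F (Set.range x))
  have hαint : IsIntegral F α := Algebra.IsIntegral.isIntegral α
  refine ⟨(α : K), fun i => ?_⟩
  have hxi : x i ∈ IntermediateField.adjoin F (Set.range x) := IntermediateField.subset_adjoin _ _ ⟨i, rfl⟩
  have h2 : (⟨x i, hxi⟩ : IntermediateField.adjoin F (Set.range x)) ∈ IntermediateField.adjoin F {α} := by
    rw [hα]
    trivial
  have h3 : (⟨x i, hxi⟩ : IntermediateField.adjoin F (Set.range x)) ∈ Algebra.adjoin F {α} := by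
    rw [← IntermediateField.adjoin_simple_toSubalgebra_of_isAlgebraic hαint.isAlgebraic]
    exact h2
  rw [Algebra.adjoin_singleton_eq_range_aeval] at h3
  obtain ⟨g, hg⟩ := h3
  refine ⟨g, ?_⟩
  have h4 := congrArg (algebraMap (IntermediateField.adjoin F (Set.range x)) K) hg
  change algebraMap _ K (aeval α g) = _ at h4
  rw [← Polynomial.aeval_algebraMap_apply] at h4
  exact h4.symm

theorem prim {K : Type*} [Field K] [Algebra ℚ K] [Algebra.IsAlgebraic ℚ K] {ι : Type*} [Finite ι] (x : ι → K) :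
    ∃ θ : K, ∃ (μ : ℤ) (f : ι → ℤ[X]), μ ≠ 0 ∧ ∀ i, aeval θ (f i) = (μ : K) * x i := by
  obtain ⟨θ, hθ⟩ := prim0 (F := ℚ) x
  choose g hg using hθ
  obtain ⟨c, F, hc, hF⟩ := clr_fin g
  refine ⟨θ, c, F, hc, fun i => ?_⟩
  rw [← aeval_map_int, hF i, map_mul, aeval_C, ← hg i]
  simp

/-- (c6) -/
theorem c6 {q : ℤ[X]} (hq : IsCoprime (q.map (Int.castRingHom ℚ)) (derivative (q.map (Int.castRingHom ℚ)))) :
    ∃ (U V : ℤ[X]) (N : ℤ), N ≠ 0 ∧ U * q + V * derivative q = C N := by
  obtain ⟨u, v, huv⟩ := hq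
  obtain ⟨c, F, hc, hF⟩ := clr_fin (ι := Bool) (fun b => if b then u else v)
  refine ⟨F true, F false, c, hc, ?_⟩
  apply Polynomial.map_injective (Int.castRingHom ℚ) (RingHom.injective_int (Int.castRingHom ℚ))
  rw [Polynomial.map_add, Polynomial.map_mul, Polynomial.map_mul, hF, hF, map_C, ← derivative_map]
  simp only [if_true, Bool.false_eq_true, if_false, eq_intCast]
  rw [mul_assoc, mul_assoc, ← mul_add, huv, mul_one]

end Pool.Agent.H96.SA
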