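import Pool.Agent.H96.SA.Alg

/-! # [H96 SA] (c6): `U q + V q' = N₀` -/

set_option autoImplicit false

namespace Pool.Agent.H96.SA

open Polynomial

theorem bez {q : Polynomial ℤ} (hi : Irreducible (q.map (Int.castRingHom ℚ))) :
    ∃ (U V : Polynomial ℤ) (N0 : ℤ), N0 ≠ 0 ∧ U * q + V * derivative q = C N0 :=
  c6 hi.separable

end Pool.Agent.H96.SA
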